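import Pool.Agent.Helper27.ETC.F7

/-! F8: the closure of a cyclic subgroup is `ℤ_p` or has order two. -/

set_option autoImplicit false

namespace Pool.Helper37.ETC

section Galois

variable {p : ℕ} [Fact p.Prime] {G K : Type*} [Group G] [TopologicalSpace G]
  [IsTopologicalGroup G] [CompactSpace G] [T2Space G] [TotallyDisconnectedSpace G] [Field K]
  [MulSemiringAction G K] {ζ : K}

omit [T2Space G] [TotallyDisconnectedSpace G] in
theorem pp_aux (Gd : Good p G K ζ) : PP p G := by
  intro σ N hN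
  have hp : p.Prime := Fact.out
  have hcl : ∀ x : K, IsClosed {τ : G | τ • x = x} := by
    intro x
    have h := Gd.cont x
    have e : ((MulAction.stabilizer G x : Subgroup G) : Set G) = {τ : G | τ • x = x} := by
      ext τ
      simp
    rw [← e] at h ⊢
    exact Subgroup.isClosed_of_isOpen _ h
  have hNc : IsCompact ((N : Set G)ᶜ) := hN.isClosed_compl.isCompact
  obtain ⟨u, hu⟩ := hNc.elim_finite_subfamily_closed (fun x : K => {τ : G | τ • x = x}) hcl (by
    ext τ
    simp only [Set.mem_inter_iff, Set.mem_compl_iff, SetLike.mem_coe, Set.mem_iInter,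
      Set.mem_ofPred_eq, Set.mem_empty_iff_false, iff_false, not_and]
    intro h1 h2
    exact h1 (by rw [Gd.faith τ h2]; exact N.one_mem))
  choose k hk using fun x => Gd.tors σ x
  refine ⟨u.sup k, ?_⟩
  by_contra hcon
  have : σ ^ (p ^ (u.sup k)) ∈ (N : Set G)ᶜ ∩ ⋂ x ∈ u, {τ : G | τ • x = x} := by
    refine ⟨hcon, ?_⟩
    simp only [Set.mem_iInter, Set.mem_ofPred_eq]
    intro x hx
    have hle : k x ≤ u.sup k := Finset.le_sup hx
    obtain ⟨d, hd⟩ := Nat.exists_eq_add_of_le hle
    rw [hd, pow_add, pow_mul]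
    have h3 : σ ^ (p ^ k x) ∈ MulAction.stabilizer G x := hk x
    exact (MulAction.stabilizer G x).pow_mem h3 _
  rw [hu] at this
  exact this

/-- the closure of an infinite cyclic subgroup is `ℤ_p`. -/
theorem procyclic_inf (Gd : Good p G K ζ) (g : G) (hfin : ¬ ∃ k : ℕ, g ^ (p ^ k) = 1) :
    Nonempty ((Subgroup.zpowers g).topologicalClosure ≃ₜ* Multiplicative (PadicInt p)) := by
  classical
  have hp : p.Prime := Fact.out
  let Z := Multiplicative ℤ_[p]
  let f : Multiplicative ℤ →* Z × G :=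
    MonoidHom.prod (AddMonoidHom.toMultiplicative (Int.castAddHom ℤ_[p])) (zpowersHom G g)
  have hf : ∀ n : ℤ, f (Multiplicative.ofAdd n) =
      (Multiplicative.ofAdd ((n : ℤ) : ℤ_[p]), g ^ n) := fun n => rfl
  let Γ : Subgroup (Z × G) := f.range.topologicalClosure
  have hfΓ : ∀ n : ℤ, ((Multiplicative.ofAdd ((n : ℤ) : ℤ_[p]), g ^ n) : Z × G) ∈ Γ := by
    intro n
    apply Subgroup.le_topologicalClosure
    exact ⟨Multiplicative.ofAdd n, hf n⟩
  have hΓcl : IsClosed (Γ : Set (Z × G)) := Subgroup.isClosed_topologicalClosure _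
  have hΓmin : ∀ S : Set (Z × G), IsClosed S →
      (∀ n : ℤ, ((Multiplicative.ofAdd ((n : ℤ) : ℤ_[p]), g ^ n) : Z × G) ∈ S) →
      (Γ : Set (Z × G)) ⊆ S := by
    intro S hS h
    rw [show (Γ : Set (Z × G)) = closure (f.range : Set (Z × G)) from rfl]
    apply closure_minimal _ hS
    rintro _ ⟨n, rfl⟩
    exact h (Multiplicative.toAdd n)
  -- key lemma
  have hA : ∀ (N : Subgroup G), IsOpen (N : Set G) → ∀ k : ℕ, g ^ (p ^ k) ∈ N →
      ∀ (z : ℤ_[p]) (c : G), ((Multiplicative.ofAdd z, c) : Z × G) ∈ Γ →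
      ‖z‖ < (p : ℝ) ^ (-(k : ℤ) + 1) → c ∈ N := by
    intro N hN k hk z c hzc hz
    have hS : IsClosed {q : Z × G | (p : ℝ) ^ (-(k : ℤ) + 1) ≤ ‖Multiplicative.toAdd q.1‖ ∨
        q.2 ∈ N} := by
      apply IsClosed.union
      · exact isClosed_le continuous_const
          ((continuous_norm.comp continuous_toAdd).comp continuous_fst)
      · exact (Subgroup.isClosed_of_isOpen N hN).preimage continuous_snd
    have := hΓmin _ hS (by
      intro n
      by_cases hn : (p : ℝ) ^ (-(k : ℤ) + 1) ≤ ‖((n : ℤ) : ℤ_[p])‖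
      · exact Or.inl hn
      · right
        push Not at hn
        rw [← PadicInt.norm_le_pow_iff_norm_lt_pow_add_one,
          PadicInt.norm_int_le_pow_iff_dvd] at hn
        obtain ⟨m, hm⟩ := hn
        change g ^ n ∈ N
        rw [hm, zpow_mul]
        apply N.zpow_mem
        have : g ^ ((p : ℤ) ^ k) = g ^ (p ^ k) := by
          rw [← zpow_natCast]
          push_cast
          rfl
        rw [this]
        exact hk) hzc
    rcases this with h | h
    · exact absurd hz (not_lt.mpr h)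
    · exact h
  have hpp := pp_aux Gd
  have hinj1 : ∀ c : G, ((Multiplicative.ofAdd (0 : ℤ_[p]), c) : Z × G) ∈ Γ → c = 1 := by
    intro c hc
    apply Gd.faith
    intro x
    have hop : IsOpen ((MulAction.stabilizer G x : Subgroup G) : Set G) := by
      have e : ((MulAction.stabilizer G x : Subgroup G) : Set G) = {τ : G | τ • x = x} := by
        ext τ
        simp
      rw [e]
      exact Gd.cont x
    obtain ⟨k, hk⟩ := hpp g _ hop
    have := hA _ hop k hk 0 c hc (by
      rw [norm_zero]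
      apply zpow_pos
      exact_mod_cast hp.pos)
    exact this
  have hinj2 : ∀ z : ℤ_[p], ((Multiplicative.ofAdd z, 1) : Z × G) ∈ Γ → z = 0 := by
    intro z hz
    by_contra hz0
    have hS : IsClosed {a : ℤ_[p] | ((Multiplicative.ofAdd (a * z), 1) : Z × G) ∈ Γ} := by
      apply hΓcl.preimage
      exact (continuous_ofAdd.comp (continuous_id.mul continuous_const)).prodMk continuous_const
    have hint : ∀ n : ℤ, ((n : ℤ) : ℤ_[p]) ∈
        {a : ℤ_[p] | ((Multiplicative.ofAdd (a * z), 1) : Z × G) ∈ Γ} := by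
      intro n
      have h1 := Γ.zpow_mem hz n
      have h2 : ((Multiplicative.ofAdd z, 1) : Z × G) ^ n =
          (Multiplicative.ofAdd (((n : ℤ) : ℤ_[p]) * z), 1) := by
        refine Prod.ext ?_ ?_
        · change (Multiplicative.ofAdd z) ^ n = _
          rw [← ofAdd_zsmul, zsmul_eq_mul]
        · change (1 : G) ^ n = 1
          exact one_zpow n
      rw [h2] at h1
      exact h1
    have hall : ∀ a : ℤ_[p], ((Multiplicative.ofAdd (a * z), 1) : Z × G) ∈ Γ := by
      intro a
      have := PadicInt.denseRange_intCast (p := p) a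
      exact closure_minimal (by rintro _ ⟨n, rfl⟩; exact hint n) hS this
    have hu := PadicInt.unitCoeff_spec hz0
    set k := z.valuation with hk
    have h1 := hall (((PadicInt.unitCoeff hz0)⁻¹ : ℤ_[p]ˣ) : ℤ_[p])
    have h2 : (((PadicInt.unitCoeff hz0)⁻¹ : ℤ_[p]ˣ) : ℤ_[p]) * z = (p : ℤ_[p]) ^ k := by
      refine (congrArg (fun t => (((PadicInt.unitCoeff hz0)⁻¹ : ℤ_[p]ˣ) : ℤ_[p]) * t) hu).trans ?_
      rw [← mul_assoc, Units.inv_mul, one_mul]
    rw [h2] at h1
    have h3 := hfΓ ((p : ℤ) ^ k)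
    have h4 := Γ.mul_mem (Γ.inv_mem h1) h3
    apply hfin
    refine ⟨k, ?_⟩
    apply hinj1
    have e : (((Multiplicative.ofAdd ((p : ℤ_[p]) ^ k), 1) : Z × G))⁻¹ *
        (Multiplicative.ofAdd ((((p : ℤ) ^ k : ℤ)) : ℤ_[p]), g ^ ((p : ℤ) ^ k)) =
        ((Multiplicative.ofAdd (0 : ℤ_[p]), g ^ (p ^ k)) : Z × G) := by
      refine Prod.ext ?_ ?_
      · change (Multiplicative.ofAdd ((p : ℤ_[p]) ^ k))⁻¹ *
          Multiplicative.ofAdd ((((p : ℤ) ^ k : ℤ)) : ℤ_[p]) = Multiplicative.ofAdd 0
        rw [← ofAdd_neg, ← ofAdd_add]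
        push_cast
        rw [neg_add_cancel]
      · change (1 : G)⁻¹ * g ^ ((p : ℤ) ^ k) = g ^ (p ^ k)
        rw [inv_one, one_mul, ← zpow_natCast]
        push_cast
        rfl
    rw [e] at h4
    exact h4
  have hΓcomp : IsCompact (Γ : Set (Z × G)) := hΓcl.isCompact
  have hsurj1 : ∀ z : Z, ∃ c : G, ((z, c) : Z × G) ∈ Γ := by
    have hc : IsClosed (Prod.fst '' (Γ : Set (Z × G))) :=
      (hΓcomp.image continuous_fst).isClosed
    intro z
    have hz := PadicInt.denseRange_intCast (p := p) (Multiplicative.toAdd z)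
    have hc' : IsClosed {a : ℤ_[p] | Multiplicative.ofAdd a ∈ Prod.fst '' (Γ : Set (Z × G))} :=
      hc.preimage continuous_ofAdd
    have : Multiplicative.toAdd z ∈
        {a : ℤ_[p] | Multiplicative.ofAdd a ∈ Prod.fst '' (Γ : Set (Z × G))} :=
      closure_minimal (by
        rintro _ ⟨n, rfl⟩
        exact ⟨_, hfΓ n, rfl⟩) hc' hz
    obtain ⟨q, hq, hq'⟩ := this
    refine ⟨q.2, ?_⟩
    have hq2 : q.1 = z := hq'
    rw [← hq2]
    exact hq
  set H := (Subgroup.zpowers g).topologicalClosure with hH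
  have hHmem : ∀ q : Z × G, q ∈ Γ → q.2 ∈ H := by
    intro q hq
    have hS : IsClosed {q : Z × G | q.2 ∈ H} :=
      (Subgroup.isClosed_topologicalClosure (Subgroup.zpowers g)).preimage continuous_snd
    exact hΓmin _ hS (fun n => Subgroup.le_topologicalClosure _ ⟨n, rfl⟩) hq
  have hsurj2 : ∀ h : G, h ∈ H → ∃ z : Z, ((z, h) : Z × G) ∈ Γ := by
    have hc : IsClosed (Prod.snd '' (Γ : Set (Z × G))) :=
      (hΓcomp.image continuous_snd).isClosed
    intro h hh
    have : h ∈ Prod.snd '' (Γ : Set (Z × G)) := by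
      have h1 : h ∈ closure (Subgroup.zpowers g : Set G) := hh
      refine closure_minimal ?_ hc h1
      rintro _ ⟨n, rfl⟩
      exact ⟨_, hfΓ n, rfl⟩
    obtain ⟨q, hq, rfl⟩ := this
    exact ⟨q.1, hq⟩
  have : CompactSpace Γ := isCompact_iff_compactSpace.mp hΓcomp
  let π₁ : Γ →* Z := (MonoidHom.fst Z G).comp Γ.subtype
  let π₂ : Γ →* H :=
    { toFun := fun q => ⟨(q : Z × G).2, hHmem _ q.2⟩
      map_one' := rfl
      map_mul' := fun _ _ => rfl }
  have b₁ : Function.Bijective π₁ := by
    constructor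
    · rw [injective_iff_map_eq_one]
      rintro ⟨⟨z, c⟩, hq⟩ h
      have hz : z = 1 := h
      subst hz
      have := hinj1 c hq
      subst this
      rfl
    · intro z
      obtain ⟨c, hc⟩ := hsurj1 z
      exact ⟨⟨_, hc⟩, rfl⟩
  have b₂ : Function.Bijective π₂ := by
    constructor
    · rw [injective_iff_map_eq_one]
      rintro ⟨⟨z, c⟩, hq⟩ h
      have hc : c = 1 := congrArg Subtype.val h
      subst hc
      have := hinj2 (Multiplicative.toAdd z) hq
      have hz : z = 1 := this
      subst hz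
      rfl
    · rintro ⟨h, hh⟩
      obtain ⟨z, hz⟩ := hsurj2 h hh
      exact ⟨⟨_, hz⟩, rfl⟩
  have c₁ : Continuous π₁ := continuous_fst.comp continuous_subtype_val
  have c₂ : Continuous π₂ := (continuous_snd.comp continuous_subtype_val).subtype_mk _
  let E₁ : Γ ≃ₜ* Z :=
    { MulEquiv.ofBijective π₁ b₁ with
      continuous_toFun := c₁
      continuous_invFun :=
        (Continuous.homeoOfEquivCompactToT2 (f := (MulEquiv.ofBijective π₁ b₁).toEquiv)
          c₁).symm.continuous }
  let E₂ : Γ ≃ₜ* H :=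
    { MulEquiv.ofBijective π₂ b₂ with
      continuous_toFun := c₂
      continuous_invFun :=
        (Continuous.homeoOfEquivCompactToT2 (f := (MulEquiv.ofBijective π₂ b₂).toEquiv)
          c₂).symm.continuous }
  exact ⟨E₂.symm.trans E₁⟩

/-- F8 (procyclic groups; uses F7, G5) -/
theorem procyclic_type (Gd : Good p G K ζ) (g : G) (hg : g ≠ 1) :
    Typed p K (Subgroup.zpowers g).topologicalClosure := by
  classical
  have hp : p.Prime := Fact.out
  by_cases hfin : ∃ k : ℕ, g ^ (p ^ k) = 1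
  · -- finite order
    right; right
    obtain ⟨k, hk⟩ := hfin
    obtain ⟨h2, hgg⟩ := torsion Gd g hg k hk
    refine ⟨h2, ?_⟩
    have hord : orderOf g = 2 := by
      have : Fact (Nat.Prime 2) := ⟨Nat.prime_two⟩
      exact orderOf_eq_prime (by rw [pow_two, hgg]) hg
    have hfin' : (Subgroup.zpowers g : Set G).Finite := by
      have : IsOfFinOrder g := isOfFinOrder_iff_pow_eq_one.mpr ⟨2, by norm_num, by
        rw [pow_two, hgg]⟩
      exact this.finite_zpowers
    have hcl : (Subgroup.zpowers g).topologicalClosure = Subgroup.zpowers g := by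
      apply le_antisymm _ (Subgroup.le_topologicalClosure _)
      exact Subgroup.topologicalClosure_minimal _ le_rfl hfin'.isClosed
    rw [hcl, Nat.card_zpowers, hord]
  left
  exact procyclic_inf Gd g hfin

end Galois

end Pool.Helper37.ETC
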