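import Pool.Agent.Helper37.ETC.Defs

/-! F7 (Artin-Schreier): torsion in a pro-`p` Galois group with all `p`-th roots. -/

set_option autoImplicit false

namespace Pool.Helper37.ETC

section Galois

variable {p : ℕ} [Fact p.Prime] {G K : Type*} [Group G] [TopologicalSpace G]
  [IsTopologicalGroup G] [CompactSpace G] [T2Space G] [TotallyDisconnectedSpace G] [Field K]
  [MulSemiringAction G K] {ζ : K}

omit [IsTopologicalGroup G] [CompactSpace G] [T2Space G] [TotallyDisconnectedSpace G] in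
theorem Good.p_ne (Gd : Good p G K ζ) : (p : K) ≠ 0 := by
  have h := Gd.prim
  have : NeZero p := ⟨(Fact.out : p.Prime).ne_zero⟩
  exact (h.neZero').out

omit [IsTopologicalGroup G] [CompactSpace G] [T2Space G] [TotallyDisconnectedSpace G] in
/-- an eigenvector for an element of order `p`. -/
theorem Good.exists_eig (Gd : Good p G K ζ) (τ : G) (h1 : τ ≠ 1) (h : τ ^ p = 1) :
    ∃ α : K, α ≠ 0 ∧ τ • α = ζ * α := by
  classical
  have hp : p.Prime := Fact.out
  have hp0 : 0 < p := hp.pos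
  have hζ0 : ζ ≠ 0 := Gd.prim.ne_zero hp.ne_zero
  have hζp : ζ ^ p = 1 := Gd.prim.pow_eq_one
  obtain ⟨x, hx⟩ : ∃ x : K, τ • x ≠ x := by
    by_contra hcon
    push Not at hcon
    exact h1 (Gd.faith τ hcon)
  -- the resolvents
  let r : ℕ → K := fun j => ∑ i ∈ Finset.range p, (ζ⁻¹) ^ (i * j) * (τ ^ i • x)
  have hr : ∀ j, τ • r j = ζ ^ j * r j := by
    intro j
    have e1 : τ • r j = ∑ i ∈ Finset.range p, (ζ⁻¹) ^ (i * j) * (τ ^ (i + 1) • x) := by
      simp only [r, Finset.smul_sum]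
      refine Finset.sum_congr rfl fun i _ => ?_
      rw [smul_mul', smul_pow', smul_inv'', Gd.fix, ← mul_smul, pow_succ']
    have e2 : ζ ^ j * r j = ∑ i ∈ Finset.range p, ζ ^ j * ((ζ⁻¹) ^ (i * j) * (τ ^ i • x)) := by
      simp only [r, Finset.mul_sum]
    rw [e1, e2]
    let F : ℕ → K := fun i => ζ ^ j * ((ζ⁻¹) ^ (i * j) * (τ ^ i • x))
    have e3 : ∀ i, (ζ⁻¹) ^ (i * j) * (τ ^ (i + 1) • x) = F (i + 1) := by
      intro i
      have hz : ζ ^ j * ζ⁻¹ ^ j = 1 := by rw [← mul_pow, mul_inv_cancel₀ hζ0, one_pow]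
      simp only [F]
      rw [show (i + 1) * j = i * j + j by ring, pow_add ζ⁻¹ (i * j) j]
      linear_combination (-(ζ⁻¹ ^ (i * j)) * (τ ^ (i + 1) • x)) * hz
    have e4 : F p = F 0 := by
      simp only [F]
      rw [h, pow_zero, pow_mul, inv_pow, hζp]
      simp
    have e5 := Finset.sum_range_succ' F p
    have e6 := Finset.sum_range_succ F p
    simp only [e3]
    have : ∑ i ∈ Finset.range p, F (i + 1) + F 0 = ∑ i ∈ Finset.range p, F i + F p := by
      rw [← e5, ← e6]
    rw [e4] at this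
    exact add_right_cancel this
  -- inversion formula
  have hsum : ∑ j ∈ Finset.range p, r j = p * x := by
    simp only [r]
    rw [Finset.sum_comm]
    have e : ∀ i ∈ Finset.range p, ∑ j ∈ Finset.range p, (ζ⁻¹) ^ (i * j) * (τ ^ i • x) =
        if i = 0 then (p : K) * x else 0 := by
      intro i hi
      rw [← Finset.sum_mul]
      by_cases hi0 : i = 0
      · subst hi0
        simp
      · rw [if_neg hi0]
        have hi' : i < p := Finset.mem_range.mp hi
        have hne : (ζ⁻¹) ^ i ≠ 1 := by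
          rw [inv_pow, Ne, inv_eq_one]
          exact Gd.prim.pow_ne_one_of_pos_of_lt hi0 hi'
        have hwp : ((ζ⁻¹) ^ i) ^ p = 1 := by
          rw [← pow_mul, mul_comm, pow_mul, show ζ⁻¹ ^ p = 1 by rw [inv_pow, hζp, inv_one],
            one_pow]
        have hz : ∑ j ∈ Finset.range p, ((ζ⁻¹) ^ i) ^ j = 0 := by
          have := geom_sum_mul ((ζ⁻¹) ^ i) p
          rw [hwp, sub_self] at this
          rcases mul_eq_zero.mp this with h' | h'
          · exact h'
          · exact absurd (sub_eq_zero.mp h') hne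
        simp only [pow_mul]
        rw [hz, zero_mul]
    rw [Finset.sum_congr rfl e, Finset.sum_ite_eq' (Finset.range p) 0]
    simp [hp0]
  -- some resolvent with nontrivial eigenvalue is nonzero
  obtain ⟨j, hj, hj0, hrj⟩ : ∃ j, j < p ∧ j ≠ 0 ∧ r j ≠ 0 := by
    by_contra hcon
    push Not at hcon
    apply hx
    have h0 : (p : K) * x = r 0 := by
      rw [← hsum]
      rw [Finset.sum_eq_single 0]
      · intro b hb hb0
        exact hcon b (Finset.mem_range.mp hb) hb0
      · intro h'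
        exact absurd (Finset.mem_range.mpr hp0) h'
    have h2 : τ • ((p : K) * x) = (p : K) * x := by
      rw [h0, hr 0, pow_zero, one_mul]
    rw [smul_mul'] at h2
    have h3 : τ • (p : K) = (p : K) := by
      exact map_natCast (MulSemiringAction.toRingHom G K τ) p
    rw [h3] at h2
    exact mul_left_cancel₀ Gd.p_ne h2
  -- a power with eigenvalue `ζ`
  have hcop : Nat.Coprime j p :=
    (Nat.coprime_of_lt_prime hj0 hj hp).symm
  obtain ⟨m, -, hm⟩ := Nat.exists_mul_mod_eq_one_of_coprime hcop hp.one_lt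
  refine ⟨r j ^ m, pow_ne_zero _ hrj, ?_⟩
  rw [smul_pow', hr j, mul_pow, ← pow_mul]
  congr 1
  rw [← Nat.mod_add_div (j * m) p, hm, pow_add, pow_one, pow_mul, hζp, one_pow, mul_one]

omit [IsTopologicalGroup G] [CompactSpace G] [T2Space G] [TotallyDisconnectedSpace G] in
/-- an element of order `p` : `p = 2` and it moves a square root of `-1`. -/
theorem Good.ord_p (Gd : Good p G K ζ) (τ : G) (h1 : τ ≠ 1) (h : τ ^ p = 1) :
    p = 2 ∧ ∃ i : K, i ^ 2 = -1 ∧ τ • i = -i := by
  have hp : p.Prime := Fact.out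
  have hζp : ζ ^ p = 1 := Gd.prim.pow_eq_one
  obtain ⟨α, hα0, hα⟩ := Gd.exists_eig τ h1 h
  obtain ⟨y, hy⟩ := Gd.root α
  have hpow : ∀ i : ℕ, τ ^ i • α = ζ ^ i * α := by
    intro i
    induction i with
    | zero => simp
    | succ i ih => rw [pow_succ', mul_smul, ih, smul_mul', smul_pow', Gd.fix, hα, pow_succ]; ring
  let N : K := ∏ i ∈ Finset.range p, τ ^ i • y
  have hN : τ • N = N := by
    have e1 : τ • N = ∏ i ∈ Finset.range p, τ ^ (i + 1) • y := by
      simp only [N, Finset.smul_prod']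
      refine Finset.prod_congr rfl fun i _ => ?_
      rw [← mul_smul, pow_succ']
    have hy0 : y ≠ 0 := by
      rintro rfl
      exact hα0 (by rw [← hy, zero_pow hp.ne_zero])
    have e2 := Finset.prod_range_succ' (fun i => τ ^ i • y) p
    have e3 := Finset.prod_range_succ (fun i => τ ^ i • y) p
    rw [h, one_smul] at e3
    rw [pow_zero, one_smul] at e2
    rw [e1]
    exact mul_right_cancel₀ hy0 (e2.symm.trans e3)
  have hNp : N ^ p = ζ ^ (p * (p - 1) / 2) * α ^ p := by
    have e1 : N ^ p = ∏ i ∈ Finset.range p, (ζ ^ i * α) := by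
      simp only [N]
      rw [← Finset.prod_pow]
      refine Finset.prod_congr rfl fun i _ => ?_
      rw [← smul_pow', hy, hpow i]
    rw [e1, Finset.prod_mul_distrib, Finset.prod_pow_eq_pow_sum, Finset.sum_range_id,
      Finset.prod_const, Finset.card_range]
  rcases hp.eq_two_or_odd' with h2 | hodd
  · refine ⟨h2, N / α, ?_, ?_⟩
    · subst h2
      have hζ : ζ = -1 := Gd.prim.eq_neg_one_of_two_right
      rw [div_pow, hNp]
      rw [hζ]
      field_simp
      norm_num
    · have hζ : ζ = -1 := by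
        subst h2
        exact Gd.prim.eq_neg_one_of_two_right
      rw [smul_div₀' , hN, hα, hζ]
      rw [neg_one_mul, div_neg]
  · exfalso
    obtain ⟨t, ht⟩ := hodd
    have e : p * (p - 1) / 2 = p * t := by
      rw [ht]
      rw [Nat.add_sub_cancel, mul_comm (2 * t + 1) (2 * t), mul_assoc,
        Nat.mul_div_cancel_left _ (by norm_num), mul_comm]
    rw [e, pow_mul, hζp, one_pow, one_mul] at hNp
    have hq : (N / α) ^ p = 1 := by
      rw [div_pow, hNp, div_self (pow_ne_zero _ hα0)]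
    obtain ⟨m, -, hm⟩ := Gd.prim.eq_pow_of_pow_eq_one hq
    have hNα : N = ζ ^ m * α := by
      rw [hm, div_mul_cancel₀ _ hα0]
    have h3 : τ • N = ζ * N := by
      rw [hNα, smul_mul', smul_pow', Gd.fix, hα]
      ring
    rw [hN] at h3
    have hN0 : N ≠ 0 := by
      rw [hNα]
      exact mul_ne_zero (pow_ne_zero _ (Gd.prim.ne_zero hp.ne_zero)) hα0
    have h4 : ζ = 1 := by
      have : ζ * N = 1 * N := by rw [one_mul]; exact h3.symm
      exact mul_right_cancel₀ hN0 this
    exact Gd.prim.ne_one hp.one_lt h4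

omit [IsTopologicalGroup G] [CompactSpace G] [T2Space G] [TotallyDisconnectedSpace G] in
theorem torsion_aux (Gd : Good p G K ζ) (σ : G) (h1 : σ ≠ 1) (k : ℕ) (h : σ ^ (p ^ k) = 1) :
    p = 2 ∧ σ * σ = 1 := by
  have hp : p.Prime := Fact.out
  -- the order of `σ`
  have hd : orderOf σ ∣ p ^ k := orderOf_dvd_of_pow_eq_one h
  obtain ⟨j, -, hj⟩ := (Nat.dvd_prime_pow hp).mp hd
  have hj0 : j ≠ 0 := by
    rintro rfl
    rw [pow_zero, orderOf_eq_one_iff] at hj
    exact h1 hj
  obtain ⟨j, rfl⟩ := Nat.exists_eq_succ_of_ne_zero hj0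
  have hτ1 : σ ^ (p ^ j) ≠ 1 := by
    intro h'
    have h2 := orderOf_dvd_of_pow_eq_one h'
    rw [hj] at h2
    have := (Nat.pow_dvd_pow_iff_le_right hp.one_lt).mp h2
    omega
  have hτp : (σ ^ (p ^ j)) ^ p = 1 := by
    rw [← pow_mul, ← pow_succ, ← Nat.succ_eq_add_one, ← hj]
    exact pow_orderOf_eq_one σ
  obtain ⟨h2, i, hi, hi'⟩ := Gd.ord_p _ hτ1 hτp
  refine ⟨h2, ?_⟩
  subst h2
  rcases Nat.eq_zero_or_pos j with rfl | hjpos
  · rw [pow_zero, pow_one, pow_two] at hτp
    exact hτp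
  · exfalso
    obtain ⟨j, rfl⟩ := Nat.exists_eq_succ_of_ne_zero hjpos.ne'
    have hρ : ∀ ρ : G, ρ • i = i ∨ ρ • i = -i := by
      intro ρ
      have : (ρ • i) ^ 2 = i ^ 2 := by
        rw [← smul_pow', hi, smul_neg, smul_one]
      exact sq_eq_sq_iff_eq_or_eq_neg.mp this
    have hfix : σ ^ (2 ^ (j + 1)) • i = i := by
      rw [pow_succ, pow_mul, pow_two, mul_smul]
      rcases hρ (σ ^ 2 ^ j) with h3 | h3
      · rw [h3, h3]
      · rw [h3, smul_neg, h3, neg_neg]
    rw [Nat.succ_eq_add_one, hfix] at hi'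
    have hi0 : i ≠ 0 := by
      rintro rfl
      norm_num at hi
    have h20 : (2 : K) ≠ 0 := by
      have := Gd.p_ne
      simpa using this
    have : 2 * i = 0 := by linear_combination hi'
    rcases mul_eq_zero.mp this with h4 | h4
    · exact h20 h4
    · exact hi0 h4

/-- F7 (Artin-Schreier) -/
theorem torsion (Gd : Good p G K ζ) (σ : G) (h1 : σ ≠ 1) (k : ℕ) (h : σ ^ (p ^ k) = 1) :
    p = 2 ∧ σ * σ = 1 :=
  torsion_aux Gd σ h1 k h

end Galois

end Pool.Helper37.ETC
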